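import Pool.Agent.Helper15.LR.Defs3
import Pool.Agent.Helper25.LR.F

set_option autoImplicit false

/-! # LR2 module R10: the gap theorem from the main theorem and the block version of Galvin's theorem -/

open Finset Filter
open scoped Classical Topology

namespace Pool.Agent.Helper9.LR

open Pool.Agent.Helper15.LR
open Pool.Agent.Helper25.LR

noncomputable section

theorem R10 (hB : BlockGalvin_stmt) (hM : Main2_stmt) : Gap_stmt := by
  unfold Gap_stmt
  intro ε hε
  filter_upwards [hM ε hε] with n hn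
  intro V _ G L Δ h hV hhn hΔ hH0 hL
  have hSS := SS_nonneg n
  set H : Finset V := univ.filter
    (fun v => (Δ : ℝ) - 2 * h - ε * SS n < (dg G.edgeSet v : ℝ)) with hH
  have hHh : H.card ≤ h := hH0
  -- a vertex of small degree
  have hex : ∃ v, v ∉ H := by
    by_contra hcon
    push Not at hcon
    have h1 : H = univ := eq_univ_iff_forall.2 hcon
    rw [h1, card_univ, hV] at hHh
    omega
  have hsmall : ∀ v, v ∉ H → (dg G.edgeSet v : ℝ) ≤ (Δ : ℝ) - 2 * h - ε * SS n := by
    intro v hv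
    by_contra hcon
    rw [not_le] at hcon
    exact hv (mem_filter.2 ⟨mem_univ _, hcon⟩)
  have hD0 : 0 ≤ (Δ : ℝ) - 2 * h - ε * SS n := by
    obtain ⟨v, hv⟩ := hex
    exact le_trans (Nat.cast_nonneg _) (hsmall v hv)
  have hhΔ : 2 * h ≤ Δ := by
    have h1 : (0 : ℝ) ≤ ε * SS n := mul_nonneg hε.le hSS
    have : (2 * h : ℝ) ≤ Δ := by linarith
    exact_mod_cast this
  -- the three parts
  set F1 : Set (Sym2 V) := {e | e ∈ G.edgeSet ∧ ∀ v ∈ e, v ∈ H} with hF1
  set F2 : Set (Sym2 V) := {e | e ∈ G.edgeSet ∧ (∃ v ∈ e, v ∈ H) ∧ (∃ v ∈ e, v ∉ H)} with hF2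
  set F3 : Set (Sym2 V) := {e | e ∈ G.edgeSet ∧ ∀ v ∈ e, v ∉ H} with hF3
  have hU : G.edgeSet = (F1 ∪ F2) ∪ F3 := by
    ext e
    simp only [hF1, hF2, hF3, Set.mem_union, Set.mem_setOf_eq]
    constructor
    · intro he
      by_cases h1 : ∀ v ∈ e, v ∈ H
      · exact Or.inl (Or.inl ⟨he, h1⟩)
      by_cases h2 : ∀ v ∈ e, v ∉ H
      · exact Or.inr ⟨he, h2⟩
      push Not at h1 h2
      exact Or.inl (Or.inr ⟨he, h2, h1⟩)
    · rintro ((h | h) | h)
      · exact h.1
      · exact h.1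
      · exact h.1
  have hmem1 : ∀ a b, s(a, b) ∈ F1 ↔ s(a, b) ∈ G.edgeSet ∧ a ∈ H ∧ b ∈ H := by
    intro a b
    simp only [hF1, Set.mem_setOf_eq, Sym2.mem_iff]
    constructor
    · rintro ⟨h1, h2⟩
      exact ⟨h1, h2 a (Or.inl rfl), h2 b (Or.inr rfl)⟩
    · rintro ⟨h1, h2, h3⟩
      refine ⟨h1, ?_⟩
      rintro v (rfl | rfl)
      · exact h2
      · exact h3
  have hmem3 : ∀ a b, s(a, b) ∈ F3 ↔ s(a, b) ∈ G.edgeSet ∧ a ∉ H ∧ b ∉ H := by
    intro a b
    simp only [hF3, Set.mem_setOf_eq, Sym2.mem_iff]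
    constructor
    · rintro ⟨h1, h2⟩
      exact ⟨h1, h2 a (Or.inl rfl), h2 b (Or.inr rfl)⟩
    · rintro ⟨h1, h2, h3⟩
      refine ⟨h1, ?_⟩
      rintro v (rfl | rfl)
      · exact h2
      · exact h3
  have hmem2 : ∀ a b, s(a, b) ∈ F2 ↔ s(a, b) ∈ G.edgeSet ∧ (a ∈ H ∧ b ∉ H ∨ a ∉ H ∧ b ∈ H) := by
    intro a b
    simp only [hF2, Set.mem_setOf_eq, Sym2.mem_iff]
    constructor
    · rintro ⟨h1, ⟨v, rfl | rfl, hv⟩, ⟨w, rfl | rfl, hw⟩⟩
      · exact absurd hv hw
      · exact ⟨h1, Or.inl ⟨hv, hw⟩⟩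
      · exact ⟨h1, Or.inr ⟨hw, hv⟩⟩
      · exact absurd hv hw
    · rintro ⟨h1, ⟨h2, h3⟩ | ⟨h2, h3⟩⟩
      · exact ⟨h1, ⟨a, Or.inl rfl, h2⟩, ⟨b, Or.inr rfl, h3⟩⟩
      · exact ⟨h1, ⟨b, Or.inr rfl, h3⟩, ⟨a, Or.inl rfl, h2⟩⟩
  -- degrees
  have hd1 : ∀ a, dg F1 a ≤ h := by
    intro a
    refine le_trans (card_le_card (fun u hu => ?_)) hHh
    rw [mem_nb, hmem1] at hu
    exact hu.2.2
  have hd1' : ∀ a ∉ H, dg F1 a = 0 := by
    intro a ha
    unfold dg
    rw [card_eq_zero, eq_empty_iff_forall_notMem]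
    intro u hu
    rw [mem_nb, hmem1] at hu
    exact ha hu.2.1
  have hd2 : ∀ a ∉ H, dg F2 a ≤ h := by
    intro a ha
    refine le_trans (card_le_card (fun u hu => ?_)) hHh
    rw [mem_nb, hmem2] at hu
    rcases hu.2 with h | h
    · exact absurd h.1 ha
    · exact h.2
  have hd12 : ∀ a, dg F1 a + dg F2 a ≤ dg G.edgeSet a := by
    intro a
    unfold dg
    rw [← card_union_of_disjoint]
    · refine card_le_card (fun u hu => ?_)
      rw [mem_union, mem_nb, mem_nb, hmem1, hmem2] at hu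
      rw [mem_nb]
      rcases hu with hu | hu
      · exact hu.1
      · exact hu.1
    · rw [Finset.disjoint_left]
      intro u hu hu'
      rw [mem_nb, hmem1] at hu
      rw [mem_nb, hmem2] at hu'
      rcases hu'.2 with h | h
      · exact h.2 hu.2.2
      · exact h.1 hu.2.1
  have hd12' : ∀ a ∉ H, dg (F1 ∪ F2) a ≤ h := by
    intro a ha
    refine le_trans (card_le_card (fun u hu => ?_)) hHh
    rw [mem_nb, Set.mem_union, hmem1, hmem2] at hu
    rcases hu with hu | hu
    · exact hu.2.2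
    · rcases hu.2 with h | h
      · exact absurd h.1 ha
      · exact h.2
  rw [hU]
  refine LC_union (LC_union (LC_greedy ?_) ?_) ?_
  · -- greedy
    intro a b hab
    have h1 := hL _ ((hmem1 a b).1 hab).1
    have h2 := hd1 a
    have h3 := hd1 b
    omega
  · -- Galvin
    intro L2 hL2
    refine hB V F2 (fun v => decide (v ∈ H)) L2 (fun _ => 0) ?_ ?_
    · intro u v huv
      rw [hmem2] at huv
      rcases huv.2 with h | h <;> simp [h.1, h.2]
    · intro a b hab ha hb
      simp only [decide_eq_true_eq, decide_eq_false_iff_not] at ha hb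
      have h1 := hL2 a b hab
      have h2 := hL _ ((hmem2 a b).1 hab).1
      have h3 := hd1' b hb
      have h4 := hd12 a
      have h5 := hΔ a
      have h6 := hd2 b hb
      have h7 := hd1 a
      simp only [lt_irrefl, filter_false, card_empty, filter_true]
      have e1 : (nb F2 a).card = dg F2 a := rfl
      have e2 : (nb F2 b).card = dg F2 b := rfl
      rw [e1, e2]
      have h8 : max (dg F2 a) (dg F2 b) ≤ (L2 s(a, b)).card := max_le (by omega) (by omega)
      omega
  · -- the rest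
    intro L3 hL3
    refine hn V F3 L3 ((Δ : ℝ) - 2 * h - ε * SS n) hV ?_ ?_ ?_
    · intro v hv
      rw [hmem3] at hv
      exact G.loopless.irrefl v hv.1
    · intro v
      by_cases hv : v ∈ H
      · have h0 : dg F3 v = 0 := by
          unfold dg
          rw [card_eq_zero, eq_empty_iff_forall_notMem]
          intro u hu
          rw [mem_nb, hmem3] at hu
          exact hu.2.1 hv
        rw [h0]
        simpa using hD0
      · refine le_trans ?_ (hsmall v hv)
        have h0 : dg F3 v ≤ dg G.edgeSet v := by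
          refine card_le_card (fun u hu => ?_)
          rw [mem_nb, hmem3] at hu
          rw [mem_nb]
          exact hu.1
        exact_mod_cast h0
    · intro e he
      induction e using Sym2.ind with
      | _ a b =>
        have h1 := hL3 a b he
        obtain ⟨h2, h3, h4⟩ := (hmem3 a b).1 he
        have h5 := hL _ h2
        have h6 := hd12' a h3
        have h7 := hd12' b h4
        have h8 : Δ ≤ (L3 s(a, b)).card + 2 * h := by omega
        have h9 : (Δ : ℝ) ≤ ((L3 s(a, b)).card : ℝ) + 2 * h := by exact_mod_cast h8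
        linarith

end

end Pool.Agent.Helper9.LR
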